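import Mathlib
import Pool.Agent.H3.TttSeven

set_option autoImplicit false

namespace Pool.Agent.Results.MP_c0c4a4_co.SevenDraw

open Pool.Agent.H3.Ttt

theorem result :
    ∃ σ : List (Fin 3 → Fin 7) → (Fin 3 → Fin 7),
      ∀ l : List (Fin 3 → Fin 7), l.Nodup →
        (∀ k : ℕ, Odd k → ∀ c : Fin 3 → Fin 7, l[k]? = some c → c = σ (l.take k)) →
        ((Odd l.length → (∃ c : Fin 3 → Fin 7, c ∉ l) → σ l ∉ l) ∧
         ¬ (∃ a : Fin 3 → Fin 7, ∃ t : Fin 3 → Fin 3, (∃ j, t j ≠ 0) ∧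
             ∀ i : Fin 7, ∃ m : ℕ, Even m ∧
               l[m]? = some (fun j => if t j = 0 then a j else if t j = 1 then i else Fin.rev i))) := by
  obtain ⟨σ, hσ⟩ := play (G kk LL cell) (Bad kk LL cell) G_init
    (fun _ _ h => G_notBad _ _ _ h) (fun _ _ _ h hB => G_mono _ _ _ h hB)
    (fun _ _ _ h hx => G_step _ _ _ cell_inj h hx)
  refine ⟨σ, fun l hnd hf => ⟨(hσ l hnd hf).1, ?_⟩⟩
  rintro ⟨a, t, ht, h⟩
  exact (hσ l hnd hf).2 (line_bad _ a t ht h)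

end Pool.Agent.Results.MP_c0c4a4_co.SevenDraw
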